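import Mathlib

/-!
# The quotient of the spherical building of `PGL₂(K)` by `PGL₂(𝓞_K)`
-/

namespace Pool.Agent.Results.MP_a12d4e_al.AdjointGroup

open Matrix Module
open scoped nonZeroDivisors

section Defs

/-- The vertices (which are all the nonempty simplices) of the spherical buildings of `SL₂(K)` and
of `PGL₂(K)`: the proper parabolic subgroups are the stabilisers of the lines of `K²`. -/
abbrev Vertex (K : Type) [Field K] : Type :=
  {L : Submodule K (Fin 2 → K) // finrank K L = 1}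

variable (R K : Type) [CommRing R] [Field K] [Algebra R K]

variable {R} in
lemma sl_mul (g h : SpecialLinearGroup (Fin 2) R) :
    ((g * h : SpecialLinearGroup (Fin 2) R) : Matrix (Fin 2) (Fin 2) R).map (algebraMap R K) =
      (g : Matrix (Fin 2) (Fin 2) R).map (algebraMap R K) *
        (h : Matrix (Fin 2) (Fin 2) R).map (algebraMap R K) := by
  rw [← Matrix.map_mul]
  rfl

variable {R} in
lemma sl_one : ((1 : SpecialLinearGroup (Fin 2) R) : Matrix (Fin 2) (Fin 2) R).map
    (algebraMap R K) = 1 := by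
  show (1 : Matrix (Fin 2) (Fin 2) R).map (algebraMap R K) = 1
  simp

/-- Two lines are in the same orbit of `SL₂(R)`. -/
def slSetoid : Setoid (Vertex K) where
  r L L' := ∃ g : SpecialLinearGroup (Fin 2) R,
    ∀ v : Fin 2 → K, v ∈ L.1 ↔ (g : Matrix (Fin 2) (Fin 2) R).map (algebraMap R K) *ᵥ v ∈ L'.1
  iseqv := by
    refine ⟨fun L => ⟨1, fun v => ?_⟩, ?_, ?_⟩
    · rw [sl_one, one_mulVec]
    · rintro L L' ⟨g, hg⟩
      refine ⟨g⁻¹, fun v => ?_⟩
      rw [hg, Matrix.mulVec_mulVec, ← sl_mul, mul_inv_cancel, sl_one, one_mulVec]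
    · rintro L L' L'' ⟨g, hg⟩ ⟨h, hh⟩
      refine ⟨h * g, fun v => ?_⟩
      rw [hg, hh, Matrix.mulVec_mulVec, sl_mul]

/-- The group `PGL₂(R)`, that is, the group of automorphisms of the `R`-algebra `M₂(R)`. -/
abbrev PGL2 : Type := Matrix (Fin 2) (Fin 2) R ≃ₐ[R] Matrix (Fin 2) (Fin 2) R

/-- Two lines are in the same orbit of `PGL₂(R)`: an automorphism `φ` of `M₂(R)` is conjugation
with some `g ∈ GL₂(K)`, unique up to scalars, and `φ` maps the line `L` to the line `g L`. -/
def pglSetoid : Setoid (Vertex K) where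
  r L L' := ∃ (φ : PGL2 R) (g : (Matrix (Fin 2) (Fin 2) K)ˣ),
    (∀ A, (φ A).map (algebraMap R K) = g.1 * A.map (algebraMap R K) * (g⁻¹).1) ∧
      ∀ v : Fin 2 → K, v ∈ L.1 ↔ g.1 *ᵥ v ∈ L'.1
  iseqv := by
    refine ⟨fun L => ⟨AlgEquiv.refl, 1, fun A => ?_, fun v => ?_⟩, ?_, ?_⟩
    · simp
    · simp
    · rintro L L' ⟨φ, g, hφ, hg⟩
      refine ⟨φ.symm, g⁻¹, fun A => ?_, fun v => ?_⟩
      · have := hφ (φ.symm A)
        rw [AlgEquiv.apply_symm_apply] at this
        rw [this, inv_inv, mul_assoc, mul_assoc, mul_assoc, ← Units.val_mul, inv_mul_cancel,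
          Units.val_one, mul_one, ← mul_assoc, ← Units.val_mul, inv_mul_cancel, Units.val_one,
          one_mul]
      · rw [hg, Matrix.mulVec_mulVec, ← Units.val_mul, mul_inv_cancel]
        simp
    · rintro L L' L'' ⟨φ, g, hφ, hg⟩ ⟨ψ, h, hψ, hh⟩
      refine ⟨φ.trans ψ, h * g, fun A => ?_, fun v => ?_⟩
      · rw [AlgEquiv.trans_apply, hψ, hφ, _root_.mul_inv_rev, Units.val_mul, Units.val_mul]
        simp only [mul_assoc]
      · rw [hg, hh, Matrix.mulVec_mulVec, Units.val_mul]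

/-- The quotient of the building of `SL₂(K)` by `SL₂(R)`: a discrete set. -/
abbrev SLQuotient : Type := Quotient (slSetoid R K)

/-- The quotient of the building of `PGL₂(K)` by `PGL₂(R)`: a discrete set. -/
abbrev PGLQuotient : Type := Quotient (pglSetoid R K)

end Defs

section General

variable {R K : Type} [CommRing R] [IsDedekindDomain R] [Field K] [Algebra R K]
  [IsFractionRing R K]

/-- The line spanned by a vector of `R²`. -/
def line (a b : R) (h : a ≠ 0 ∨ b ≠ 0) : Vertex K :=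
  ⟨K ∙ ![algebraMap R K a, algebraMap R K b], finrank_span_singleton (by
    intro h0
    have h1 := congrFun h0 0
    have h2 := congrFun h0 1
    simp only [Matrix.cons_val_zero, Matrix.cons_val_one, Pi.zero_apply,
      FaithfulSMul.algebraMap_eq_zero_iff] at h1 h2
    rcases h with h | h
    · exact h h1
    · exact h h2)⟩

lemma exists_line (L : Vertex K) : ∃ (a b : R) (h : a ≠ 0 ∨ b ≠ 0), L = line a b h := by
  classical
  obtain ⟨v, hv0, hv⟩ := finrank_eq_one_iff'.1 L.2
  obtain ⟨s, hs⟩ := IsLocalization.exist_integer_multiples_of_finset R⁰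
    ({v.1 0, v.1 1} : Finset K)
  obtain ⟨a, ha⟩ := hs (v.1 0) (by simp)
  obtain ⟨b, hb⟩ := hs (v.1 1) (by simp)
  have hs0 : algebraMap R K s ≠ 0 := by
    rw [Ne, FaithfulSMul.algebraMap_eq_zero_iff]
    exact nonZeroDivisors.ne_zero s.2
  have hv' : (v : Fin 2 → K) ≠ 0 := fun h => hv0 (Subtype.ext h)
  have hab : (![algebraMap R K a, algebraMap R K b] : Fin 2 → K) = algebraMap R K s • v.1 := by
    ext i
    fin_cases i
    · simp [ha, Algebra.smul_def]
    · simp [hb, Algebra.smul_def]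
  have h : a ≠ 0 ∨ b ≠ 0 := by
    by_contra hcon
    push Not at hcon
    obtain ⟨rfl, rfl⟩ := hcon
    have h1 : algebraMap R K s • v.1 = 0 := by
      rw [← hab]
      ext i
      fin_cases i <;> simp
    exact (smul_ne_zero hs0 hv') h1
  refine ⟨a, b, h, Subtype.ext ?_⟩
  show L.1 = K ∙ ![algebraMap R K a, algebraMap R K b]
  rw [hab]
  ext w
  rw [Submodule.mem_span_singleton]
  constructor
  · intro hw
    obtain ⟨c, hc⟩ := hv ⟨w, hw⟩
    refine ⟨c * (algebraMap R K s)⁻¹, ?_⟩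
    have h2 : c • v.1 = w := congrArg Subtype.val hc
    rw [smul_smul, mul_assoc, inv_mul_cancel₀ hs0, mul_one, h2]
  · rintro ⟨c, rfl⟩
    exact L.1.smul_mem _ (L.1.smul_mem _ v.2)

/-- Bezout elements in the inverse ideal. -/
lemma exists_bezout {I : Ideal R} (hI : I ≠ ⊥) {a b : R} (hab : I = Ideal.span {a, b}) :
    ∃ a' b' : K, (∀ z ∈ I, ∃ r : R, algebraMap R K r = a' * algebraMap R K z) ∧
      (∀ z ∈ I, ∃ r : R, algebraMap R K r = b' * algebraMap R K z) ∧
      algebraMap R K a * a' + algebraMap R K b * b' = 1 := by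
  have hI' : (I : FractionalIdeal R⁰ K) ≠ 0 := FractionalIdeal.coeIdeal_ne_zero.2 hI
  have h1 : (1 : K) ∈ (I : FractionalIdeal R⁰ K) * (I : FractionalIdeal R⁰ K)⁻¹ := by
    rw [mul_inv_cancel₀ hI']
    exact FractionalIdeal.one_mem_one _
  have h2 : (I : FractionalIdeal R⁰ K) = FractionalIdeal.spanSingleton R⁰ (algebraMap R K a) +
      FractionalIdeal.spanSingleton R⁰ (algebraMap R K b) := by
    rw [hab, Ideal.span_insert, FractionalIdeal.coeIdeal_sup,
      FractionalIdeal.coeIdeal_span_singleton, FractionalIdeal.coeIdeal_span_singleton]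
  nth_rewrite 1 [h2] at h1
  rw [add_mul, FractionalIdeal.mem_add] at h1
  obtain ⟨x, hx, y, hy, hxy⟩ := h1
  rw [FractionalIdeal.mem_singleton_mul] at hx hy
  obtain ⟨a', ha', rfl⟩ := hx
  obtain ⟨b', hb', rfl⟩ := hy
  rw [FractionalIdeal.mem_inv_iff hI'] at ha' hb'
  refine ⟨a', b', fun z hz => ?_, fun z hz => ?_, hxy⟩
  · have := ha' _ (FractionalIdeal.mem_coeIdeal_of_mem R⁰ hz)
    rwa [FractionalIdeal.mem_one_iff] at this
  · have := hb' _ (FractionalIdeal.mem_coeIdeal_of_mem R⁰ hz)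
    rwa [FractionalIdeal.mem_one_iff] at this

/-- Lines whose ideals have the same class are in the same orbit of `SL₂(R)`. -/
lemma sl_of_class {a b c d : R} (h : a ≠ 0 ∨ b ≠ 0) (h' : c ≠ 0 ∨ d ≠ 0)
    (hcl : Ideal.span {a, b} = Ideal.span {c, d}) :
    slSetoid R K (line a b h) (line c d h') := by
  set I := Ideal.span {a, b} with hI
  have hI0 : I ≠ ⊥ := by
    rw [hI, Ne, Ideal.span_eq_bot]
    push Not
    rcases h with h | h
    · exact ⟨a, by simp, h⟩
    · exact ⟨b, by simp, h⟩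
  have haI : a ∈ I := Ideal.subset_span (by simp)
  have hbI : b ∈ I := Ideal.subset_span (by simp)
  have hcI : c ∈ I := by rw [hcl]; exact Ideal.subset_span (by simp)
  have hdI : d ∈ I := by rw [hcl]; exact Ideal.subset_span (by simp)
  obtain ⟨a', b', ha', hb', hab⟩ := exists_bezout (K := K) hI0 hI
  obtain ⟨c', d', hc', hd', hcd⟩ := exists_bezout (K := K) hI0 hcl
  obtain ⟨r1, hr1⟩ := ha' c hcI
  obtain ⟨r2, hr2⟩ := hd' b hbI
  obtain ⟨r3, hr3⟩ := hb' c hcI
  obtain ⟨r4, hr4⟩ := hd' a haI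
  obtain ⟨r5, hr5⟩ := ha' d hdI
  obtain ⟨r6, hr6⟩ := hc' b hbI
  obtain ⟨r7, hr7⟩ := hb' d hdI
  obtain ⟨r8, hr8⟩ := hc' a haI
  have hdet : (!![r1 + r2, r3 - r4; r5 - r6, r7 + r8] : Matrix (Fin 2) (Fin 2) R).det = 1 := by
    apply IsFractionRing.injective R K
    rw [Matrix.det_fin_two_of]
    simp only [map_sub, map_mul, map_add, map_one, hr1, hr2, hr3, hr4, hr5, hr6, hr7, hr8]
    linear_combination (algebraMap R K c * c' + algebraMap R K d * d') * hab + hcd
  have e1 : (r1 + r2) * a + (r3 - r4) * b = c := by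
    apply IsFractionRing.injective R K
    simp only [map_sub, map_mul, map_add, hr1, hr2, hr3, hr4]
    linear_combination algebraMap R K c * hab
  have e2 : (r5 - r6) * a + (r7 + r8) * b = d := by
    apply IsFractionRing.injective R K
    simp only [map_sub, map_mul, map_add, hr5, hr6, hr7, hr8]
    linear_combination algebraMap R K d * hab
  let g : SpecialLinearGroup (Fin 2) R := ⟨!![r1 + r2, r3 - r4; r5 - r6, r7 + r8], hdet⟩
  have hg : (g : Matrix (Fin 2) (Fin 2) R).map (algebraMap R K) *ᵥ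
      ![algebraMap R K a, algebraMap R K b] = ![algebraMap R K c, algebraMap R K d] := by
    show (!![r1 + r2, r3 - r4; r5 - r6, r7 + r8] : Matrix (Fin 2) (Fin 2) R).map
      (algebraMap R K) *ᵥ _ = _
    rw [← e1, ← e2]
    ext i
    fin_cases i <;> simp [Matrix.mulVec, dotProduct, Fin.sum_univ_two]
  have hginv : ∀ v w : Fin 2 → K, (g : Matrix (Fin 2) (Fin 2) R).map (algebraMap R K) *ᵥ v =
      (g : Matrix (Fin 2) (Fin 2) R).map (algebraMap R K) *ᵥ w → v = w := by
    intro v w hvw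
    have h1 := congrArg (fun z => ((g⁻¹ : SpecialLinearGroup (Fin 2) R) :
      Matrix (Fin 2) (Fin 2) R).map (algebraMap R K) *ᵥ z) hvw
    simp only [Matrix.mulVec_mulVec] at h1
    rw [← sl_mul, inv_mul_cancel, sl_one, one_mulVec, one_mulVec] at h1
    exact h1
  refine ⟨g, fun v => ?_⟩
  show v ∈ (K ∙ ![algebraMap R K a, algebraMap R K b]) ↔
    _ ∈ (K ∙ ![algebraMap R K c, algebraMap R K d])
  rw [Submodule.mem_span_singleton, Submodule.mem_span_singleton]
  constructor
  · rintro ⟨t, rfl⟩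
    exact ⟨t, by rw [Matrix.mulVec_smul, hg]⟩
  · rintro ⟨t, ht⟩
    refine ⟨t, hginv _ _ ?_⟩
    rw [Matrix.mulVec_smul, hg, ht]

lemma line_smul {a b : R} (h : a ≠ 0 ∨ b ≠ 0) {x : R} (hx : x ≠ 0) :
    ∃ h' : x * a ≠ 0 ∨ x * b ≠ 0, line (K := K) (x * a) (x * b) h' = line a b h := by
  refine ⟨h.imp (fun h => mul_ne_zero hx h) (fun h => mul_ne_zero hx h), Subtype.ext ?_⟩
  show (K ∙ ![algebraMap R K (x * a), algebraMap R K (x * b)]) =
    (K ∙ ![algebraMap R K a, algebraMap R K b])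
  have hx' : algebraMap R K x ≠ 0 := by
    rwa [Ne, FaithfulSMul.algebraMap_eq_zero_iff]
  have : (![algebraMap R K (x * a), algebraMap R K (x * b)] : Fin 2 → K) =
      algebraMap R K x • ![algebraMap R K a, algebraMap R K b] := by
    ext i
    fin_cases i <;> simp
  rw [this]
  exact Submodule.span_singleton_smul_eq (IsUnit.mk0 _ hx') _

omit [IsDedekindDomain R] in
lemma span_mul {a b x : R} : Ideal.span {x * a, x * b} = Ideal.span {x} * Ideal.span {a, b} := by
  rw [Ideal.span_mul_span']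
  congr 1
  ext y
  simp [eq_comm]

variable (R K) in
/-- There are finitely many orbits of `SL₂(R)` if the class group is finite. -/
lemma finite_sl [Finite (ClassGroup R)] : Finite (SLQuotient R K) := by
  classical
  have hne : ∀ {a b : R}, a ≠ 0 ∨ b ≠ 0 → Ideal.span {a, b} ∈ (Ideal R)⁰ := by
    intro a b h
    rw [mem_nonZeroDivisors_iff_ne_zero]
    show Ideal.span {a, b} ≠ ⊥
    rw [Ne, Ideal.span_eq_bot]
    push Not
    rcases h with h | h
    · exact ⟨a, by simp, h⟩
    · exact ⟨b, by simp, h⟩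
  choose A B hAB hL using fun L : Vertex K => exists_line (R := R) L
  refine Finite.of_injective (β := ClassGroup R)
    (fun q => ClassGroup.mk0 ⟨_, hne (hAB (Quotient.out q))⟩) ?_
  intro q q' hqq
  simp only at hqq
  rw [ClassGroup.mk0_eq_mk0_iff] at hqq
  obtain ⟨x, y, hx, hy, hxy⟩ := hqq
  simp only at hxy
  rw [← span_mul, ← span_mul] at hxy
  obtain ⟨h1, e1⟩ := line_smul (K := K) (hAB (Quotient.out q)) hx
  obtain ⟨h2, e2⟩ := line_smul (K := K) (hAB (Quotient.out q')) hy
  have h3 := sl_of_class (K := K) h1 h2 hxy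
  rw [e1, e2, ← hL, ← hL] at h3
  rw [← Quotient.out_eq q, ← Quotient.out_eq q']
  exact Quotient.sound h3

omit [IsDedekindDomain R] [IsFractionRing R K] in
/-- a matrix all of whose entries are in `R` -/
lemma exists_matrix (X : Matrix (Fin 2) (Fin 2) K)
    (h : ∀ i j, ∃ r : R, algebraMap R K r = X i j) :
    ∃ A : Matrix (Fin 2) (Fin 2) R, A.map (algebraMap R K) = X := by
  choose A hA using h
  exact ⟨A, by ext i j; exact hA i j⟩

omit [IsDedekindDomain R] in
/-- Conjugation with a matrix with entries in `I` whose inverse has entries in the inverse of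
`I`. -/
lemma exists_aut (g : (Matrix (Fin 2) (Fin 2) K)ˣ)
    (h : ∀ i j k l, ∃ r : R, algebraMap R K r = g.1 i j * (g⁻¹).1 k l) :
    ∃ φ : PGL2 R, ∀ A, (φ A).map (algebraMap R K) = g.1 * A.map (algebraMap R K) * (g⁻¹).1 := by
  let ι : Matrix (Fin 2) (Fin 2) R →ₐ[R] Matrix (Fin 2) (Fin 2) K := (Algebra.ofId R K).mapMatrix
  have hι : ∀ A, ι A = A.map (algebraMap R K) := fun A => rfl
  have hinj : Function.Injective ι := by
    intro A B hAB
    rw [hι, hι] at hAB
    exact Matrix.map_injective (IsFractionRing.injective R K) hAB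
  let c : Matrix (Fin 2) (Fin 2) K →ₐ[R] Matrix (Fin 2) (Fin 2) K :=
    AlgHom.ofLinearMap
      { toFun := fun A => g.1 * A * (g⁻¹).1
        map_add' := fun A B => by rw [mul_add, add_mul]
        map_smul' := fun r A => by simp }
      (by simp)
      (fun A B => by
        show g.1 * (A * B) * (g⁻¹).1 = g.1 * A * (g⁻¹).1 * (g.1 * B * (g⁻¹).1)
        rw [show g.1 * A * (g⁻¹).1 * (g.1 * B * (g⁻¹).1) =
          g.1 * A * ((g⁻¹).1 * g.1) * B * (g⁻¹).1 by simp only [mul_assoc], Units.inv_mul]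
        simp only [mul_assoc, mul_one])
  have hc : ∀ A, c A = g.1 * A * (g⁻¹).1 := fun A => rfl
  have hcinj : Function.Injective (c.comp ι) := by
    intro A B hAB
    apply hinj
    rw [AlgHom.comp_apply, AlgHom.comp_apply, hc, hc] at hAB
    have h1 := congrArg (fun X => (g⁻¹).1 * X * g.1) hAB
    simp only [mul_assoc] at h1
    rw [Units.inv_mul] at h1
    simp only [mul_one] at h1
    rwa [← mul_assoc, ← mul_assoc, Units.inv_mul, one_mul, one_mul] at h1
  choose ρ hρ using h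
  have hfw : ∀ A : Matrix (Fin 2) (Fin 2) R, ∃ B : Matrix (Fin 2) (Fin 2) R, ι B = c (ι A) := by
    intro A
    refine exists_matrix (R := R) (K := K) _ (fun i j => ⟨∑ k, ∑ l, A k l * ρ i k l j, ?_⟩)
    rw [hc, hι, map_sum, Matrix.mul_apply]
    simp only [Matrix.mul_apply, Finset.sum_mul, map_sum, map_mul, hρ, Matrix.map_apply]
    rw [Finset.sum_comm]
    refine Finset.sum_congr rfl fun k _ => Finset.sum_congr rfl fun l _ => ?_
    ring
  have hbw : ∀ B : Matrix (Fin 2) (Fin 2) R, ∃ A : Matrix (Fin 2) (Fin 2) R, c (ι A) = ι B := by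
    intro B
    obtain ⟨A, hA⟩ := exists_matrix (R := R) (K := K) ((g⁻¹).1 * ι B * g.1)
      (fun i j => ⟨∑ k, ∑ l, B k l * ρ l j i k, by
        rw [hι, map_sum, Matrix.mul_apply]
        simp only [Matrix.mul_apply, Finset.sum_mul, map_sum, map_mul, hρ, Matrix.map_apply]
        rw [Finset.sum_comm]
        refine Finset.sum_congr rfl fun k _ => Finset.sum_congr rfl fun l _ => ?_
        ring⟩)
    refine ⟨A, ?_⟩
    rw [hc, hι A, hA]
    rw [show g.1 * ((g⁻¹).1 * ι B * g.1) * (g⁻¹).1 = (g.1 * (g⁻¹).1) * ι B * (g.1 * (g⁻¹).1) by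
      simp only [mul_assoc], Units.mul_inv, one_mul, mul_one]
  have hrange : (c.comp ι).range = ι.range := by
    apply le_antisymm
    · rintro _ ⟨A, rfl⟩
      obtain ⟨B, hB⟩ := hfw A
      exact ⟨B, hB⟩
    · rintro _ ⟨B, rfl⟩
      obtain ⟨A, hA⟩ := hbw B
      exact ⟨A, hA⟩
  let φ : PGL2 R := (AlgEquiv.ofInjective (c.comp ι) hcinj).trans
    ((Subalgebra.equivOfEq _ _ hrange).trans (AlgEquiv.ofInjective ι hinj).symm)
  refine ⟨φ, fun A => ?_⟩
  have h1 : (AlgEquiv.ofInjective ι hinj) (φ A) =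
      (Subalgebra.equivOfEq _ _ hrange) ((AlgEquiv.ofInjective (c.comp ι) hcinj) A) := by
    show (AlgEquiv.ofInjective ι hinj) ((AlgEquiv.ofInjective ι hinj).symm _) = _
    rw [AlgEquiv.apply_symm_apply]
    rfl
  exact congrArg Subtype.val h1

omit [IsDedekindDomain R] in
/-- `SL₂(R)`-orbits are contained in `PGL₂(R)`-orbits. -/
lemma pgl_of_sl (L L' : Vertex K) (h : slSetoid R K L L') : pglSetoid R K L L' := by
  obtain ⟨g, hg⟩ := h
  let G : (Matrix (Fin 2) (Fin 2) K)ˣ :=
    ⟨(g : Matrix (Fin 2) (Fin 2) R).map (algebraMap R K),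
      ((g⁻¹ : SpecialLinearGroup (Fin 2) R) : Matrix (Fin 2) (Fin 2) R).map (algebraMap R K),
      by rw [← sl_mul, mul_inv_cancel, sl_one], by rw [← sl_mul, inv_mul_cancel, sl_one]⟩
  obtain ⟨φ, hφ⟩ := exists_aut (R := R) G (fun i j k l =>
    ⟨(g : Matrix (Fin 2) (Fin 2) R) i j *
      ((g⁻¹ : SpecialLinearGroup (Fin 2) R) : Matrix (Fin 2) (Fin 2) R) k l, by
        rw [map_mul]; rfl⟩)
  exact ⟨φ, G, hφ, hg⟩

/-- A nonprincipal ideal with principal square gives two lines in the same orbit of `PGL₂(R)` but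
in different orbits of `SL₂(R)`. -/
lemma pair_of_ideal {I : Ideal R} {a b α : R} (hI : I = Ideal.span {a, b}) (hI0 : I ≠ ⊥)
    (hα : I * I = Ideal.span {α}) (hnp : ∀ t, I ≠ Ideal.span {t}) :
    ∃ L L' : Vertex K, pglSetoid R K L L' ∧ ¬ slSetoid R K L L' := by
  have haI : a ∈ I := by rw [hI]; exact Ideal.subset_span (by simp)
  have hbI : b ∈ I := by rw [hI]; exact Ideal.subset_span (by simp)
  have hα0 : α ≠ 0 := by
    rintro rfl
    rw [Ideal.span_singleton_eq_bot.2 rfl, Ideal.mul_eq_bot] at hα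
    exact hI0 (hα.elim id id)
  have hα0' : algebraMap R K α ≠ 0 := by
    rwa [Ne, FaithfulSMul.algebraMap_eq_zero_iff]
  have hab0 : a ≠ 0 ∨ b ≠ 0 := by
    by_contra hcon
    push Not at hcon
    apply hI0
    rw [hI, hcon.1, hcon.2]
    simp
  have h10 : (1 : R) ≠ 0 ∨ (0 : R) ≠ 0 := Or.inl one_ne_zero
  obtain ⟨a', b', ha', hb', hab⟩ := exists_bezout (K := K) hI0 hI
  have hαI : α ∈ I * I := by rw [hα]; exact Ideal.mem_span_singleton_self α
  have hmul : ∀ y : K, (∀ z ∈ I, ∃ r : R, algebraMap R K r = y * algebraMap R K z) →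
      ∀ x ∈ I * I, ∃ r ∈ I, algebraMap R K r = y * algebraMap R K x := by
    intro y hy x hx
    induction hx using Submodule.mul_induction_on' with
    | mem_mul_mem m hm n hn =>
      obtain ⟨r, hr⟩ := hy n hn
      exact ⟨m * r, I.mul_mem_right _ hm, by
        rw [map_mul, hr, map_mul]; ring⟩
    | add x _ y' _ hx hy' =>
      obtain ⟨r, hr, hr2⟩ := hx
      obtain ⟨s, hs, hs2⟩ := hy'
      exact ⟨r + s, I.add_mem hr hs, by rw [map_add, map_add, hr2, hs2]; ring⟩
  obtain ⟨ra, hraI, hra⟩ := hmul a' ha' α hαI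
  obtain ⟨rb, hrbI, hrb⟩ := hmul b' hb' α hαI
  have hinv : ∀ w ∈ I, ∀ z ∈ I, ∃ r : R,
      algebraMap R K r = (algebraMap R K w / algebraMap R K α) * algebraMap R K z := by
    intro w hw z hz
    have h1 : w * z ∈ Ideal.span {α} := by rw [← hα]; exact Ideal.mul_mem_mul hw hz
    obtain ⟨r, hr⟩ := Ideal.mem_span_singleton'.1 h1
    refine ⟨r, ?_⟩
    rw [div_mul_eq_mul_div, ← map_mul, ← hr, map_mul, mul_div_assoc, div_self hα0', mul_one]
  let G : (Matrix (Fin 2) (Fin 2) K)ˣ :=
    ⟨!![algebraMap R K a, -algebraMap R K rb; algebraMap R K b, algebraMap R K ra],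
      !![a', b'; -(algebraMap R K b / algebraMap R K α), algebraMap R K a / algebraMap R K α], by
        rw [hra, hrb, Matrix.mul_fin_two, Matrix.one_fin_two]
        congr 1
        ext i j
        fin_cases i <;> fin_cases j
        · simp; field_simp; linear_combination hab
        · simp; field_simp; ring
        · simp; field_simp; ring
        · simp; field_simp; linear_combination hab, by
        rw [hra, hrb, Matrix.mul_fin_two, Matrix.one_fin_two]
        congr 1
        ext i j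
        fin_cases i <;> fin_cases j
        · simp; linear_combination hab
        · simp; ring
        · simp; field_simp; ring
        · simp; field_simp; linear_combination hab⟩
  have hG1 : ∀ i j, ∃ z ∈ I, algebraMap R K z = G.1 i j := by
    intro i j
    fin_cases i <;> fin_cases j
    · exact ⟨a, haI, rfl⟩
    · exact ⟨-rb, I.neg_mem hrbI, by rw [map_neg]; rfl⟩
    · exact ⟨b, hbI, rfl⟩
    · exact ⟨ra, hraI, rfl⟩
  have hG2 : ∀ i j, ∀ z ∈ I, ∃ r : R, algebraMap R K r = (G⁻¹).1 i j * algebraMap R K z := by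
    intro i j z hz
    fin_cases i <;> fin_cases j
    · exact ha' z hz
    · exact hb' z hz
    · obtain ⟨r, hr⟩ := hinv b hbI z hz
      exact ⟨-r, by
        rw [map_neg, hr]
        show _ = -(algebraMap R K b / algebraMap R K α) * _
        ring⟩
    · exact hinv a haI z hz
  obtain ⟨φ, hφ⟩ := exists_aut (R := R) G (fun i j k l => by
    obtain ⟨z, hz, hz2⟩ := hG1 i j
    obtain ⟨r, hr⟩ := hG2 k l z hz
    exact ⟨r, by rw [hr, hz2, mul_comm]⟩)
  refine ⟨line 1 0 h10, line a b hab0, ⟨φ, G, hφ, fun v => ?_⟩, ?_⟩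
  · have hG : G.1 *ᵥ ![algebraMap R K 1, algebraMap R K 0] =
        ![algebraMap R K a, algebraMap R K b] := by
      show !![algebraMap R K a, -algebraMap R K rb; algebraMap R K b, algebraMap R K ra] *ᵥ _ = _
      ext i
      fin_cases i <;> simp [Matrix.mulVec, dotProduct, Fin.sum_univ_two]
    show v ∈ (K ∙ ![algebraMap R K 1, algebraMap R K 0]) ↔
      _ ∈ (K ∙ ![algebraMap R K a, algebraMap R K b])
    rw [Submodule.mem_span_singleton, Submodule.mem_span_singleton]
    constructor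
    · rintro ⟨t, rfl⟩
      exact ⟨t, by rw [Matrix.mulVec_smul, hG]⟩
    · rintro ⟨t, ht⟩
      refine ⟨t, ?_⟩
      have h1 := congrArg (fun z => (G⁻¹).1 *ᵥ z) ht
      rw [← hG, ← Matrix.mulVec_smul, Matrix.mulVec_mulVec, Matrix.mulVec_mulVec, Units.inv_mul,
        one_mulVec, one_mulVec] at h1
      exact h1
  · rintro ⟨g, hg⟩
    have h1 : (![algebraMap R K 1, algebraMap R K 0] : Fin 2 → K) ∈
        (line (K := K) (1 : R) 0 h10).1 := Submodule.mem_span_singleton_self _
    have h2 := (hg _).1 h1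
    obtain ⟨t, ht⟩ := Submodule.mem_span_singleton.1 h2
    have e0 : t * algebraMap R K a = algebraMap R K ((g : Matrix (Fin 2) (Fin 2) R) 0 0) := by
      have := congrFun ht 0
      simpa [Matrix.mulVec, dotProduct, Fin.sum_univ_two] using this
    have e1 : t * algebraMap R K b = algebraMap R K ((g : Matrix (Fin 2) (Fin 2) R) 1 0) := by
      have := congrFun ht 1
      simpa [Matrix.mulVec, dotProduct, Fin.sum_univ_two] using this
    have hdet := g.det_coe
    rw [Matrix.det_fin_two] at hdet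
    set p := (g : Matrix (Fin 2) (Fin 2) R) 0 0
    set q := (g : Matrix (Fin 2) (Fin 2) R) 1 0
    set r := (g : Matrix (Fin 2) (Fin 2) R) 0 1
    set s := (g : Matrix (Fin 2) (Fin 2) R) 1 1
    have hdet' : algebraMap R K p * algebraMap R K s - algebraMap R K r * algebraMap R K q = 1 := by
      rw [← map_mul, ← map_mul, ← map_sub, hdet, map_one]
    apply hnp (a * s - b * r)
    apply le_antisymm
    · rw [hI, Ideal.span_le]
      rintro x (rfl | rfl)
      · refine Ideal.mem_span_singleton'.2 ⟨p, ?_⟩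
        apply IsFractionRing.injective R K
        simp only [map_mul, map_sub]
        rw [← e0, ← e1] at hdet'
        rw [← e0]
        linear_combination algebraMap R K x * hdet'
      · refine Ideal.mem_span_singleton'.2 ⟨q, ?_⟩
        apply IsFractionRing.injective R K
        simp only [map_mul, map_sub]
        rw [← e0, ← e1] at hdet'
        rw [← e1]
        linear_combination algebraMap R K x * hdet'
    · rw [Ideal.span_singleton_le_iff_mem]
      exact I.sub_mem (I.mul_mem_right _ haI) (I.mul_mem_right _ hbI)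

end General

/-! ### Number fields -/

section NumberFields

open NumberField

/-- If the class number of `K` is even, the two quotients are not isomorphic. -/
theorem not_iso (K : Type) [Field K] [NumberField K] (hK : Even (classNumber K)) :
    IsEmpty (PGLQuotient (𝓞 K) K ≃ SLQuotient (𝓞 K) K) := by
  classical
  have hfin : Finite (SLQuotient (𝓞 K) K) := finite_sl (𝓞 K) K
  obtain ⟨c, hc⟩ := exists_prime_orderOf_dvd_card (G := ClassGroup (𝓞 K)) 2
    (even_iff_two_dvd.1 hK)
  obtain ⟨I, rfl⟩ := ClassGroup.mk0_surjective c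
  have hI0 : (I : Ideal (𝓞 K)) ≠ ⊥ := nonZeroDivisors.ne_zero I.2
  have hne : ClassGroup.mk0 I ≠ 1 := by
    intro h
    rw [h, orderOf_one] at hc
    omega
  have hsq : ClassGroup.mk0 (I * I) = 1 := by
    rw [map_mul, ← pow_two, ← hc, pow_orderOf_eq_one]
  rw [ClassGroup.mk0_eq_one_iff] at hsq
  rw [Ne, ClassGroup.mk0_eq_one_iff] at hne
  obtain ⟨α, hα⟩ := hsq.principal
  obtain ⟨a, haI, ha0⟩ := Submodule.exists_mem_ne_zero_of_ne_bot hI0
  obtain ⟨b, hab⟩ := IsDedekindDomain.exists_eq_span_pair haI ha0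
  obtain ⟨L, L', h1, h2⟩ := pair_of_ideal (K := K) hab hI0 (α := α) hα
    (fun t ht => hne ⟨⟨t, ht⟩⟩)
  constructor
  intro e
  let π : SLQuotient (𝓞 K) K → PGLQuotient (𝓞 K) K :=
    Quotient.map id (fun L L' h => pgl_of_sl L L' h)
  have hπ : Function.Surjective π := by
    intro q
    obtain ⟨L, rfl⟩ := Quotient.exists_rep q
    exact ⟨Quotient.mk _ L, rfl⟩
  have hinj : Function.Injective (e ∘ π) :=
    Finite.injective_iff_surjective.2 (e.surjective.comp hπ)
  have hπi : Function.Injective π := Function.Injective.of_comp hinj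
  apply h2
  have h3 : (Quotient.mk (slSetoid (𝓞 K) K) L) = Quotient.mk (slSetoid (𝓞 K) K) L' :=
    hπi (Quotient.sound h1)
  exact Quotient.exact h3

instance fact_neg_five : Fact (∀ r : ℚ, r ^ 2 ≠ (-5 : ℚ) + 0 * r) :=
  ⟨fun r h => by nlinarith [sq_nonneg r]⟩

/-- The field `ℚ(√-5)`. -/
abbrev Q5 : Type := QuadraticAlgebra ℚ (-5) 0

instance numberField_Q5 : NumberField Q5 where
  to_charZero := inferInstance
  to_finiteDimensional := inferInstance

lemma norm_int (x : 𝓞 Q5) : ∃ n : ℤ, (QuadraticAlgebra.norm (x : Q5) : ℚ) = n := by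
  have hx : IsIntegral ℤ (x : Q5) := RingOfIntegers.isIntegral_coe x
  have hs : IsIntegral ℤ (star (x : Q5)) := by
    have := hx.map ((starRingEnd Q5).toIntAlgHom)
    exact this
  have h1 : IsIntegral ℤ ((x : Q5) * star (x : Q5)) := hx.mul hs
  rw [← QuadraticAlgebra.algebraMap_norm_eq_mul_star] at h1
  have h2 : IsIntegral ℤ (QuadraticAlgebra.norm (x : Q5) : ℚ) :=
    (isIntegral_algebraMap_iff (FaithfulSMul.algebraMap_injective ℚ Q5)).1 h1
  obtain ⟨n, hn⟩ := IsIntegrallyClosed.isIntegral_iff.1 h2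
  exact ⟨n, hn.symm⟩

lemma trace_int (x : 𝓞 Q5) : ∃ n : ℤ, 2 * (x : Q5).re = n := by
  have hx : IsIntegral ℤ (x : Q5) := RingOfIntegers.isIntegral_coe x
  have hs : IsIntegral ℤ (star (x : Q5)) := by
    have := hx.map ((starRingEnd Q5).toIntAlgHom)
    exact this
  have h1 : IsIntegral ℤ ((x : Q5) + star (x : Q5)) := hx.add hs
  have h3 : (x : Q5) + star (x : Q5) = algebraMap ℚ Q5 (2 * (x : Q5).re) := by
    rw [eq_ratCast]
    show _ = (⟨2 * (x : Q5).re, 0⟩ : Q5)
    ext
    · simp; ring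
    · simp
  rw [h3] at h1
  have h2 : IsIntegral ℤ (2 * (x : Q5).re) :=
    (isIntegral_algebraMap_iff (FaithfulSMul.algebraMap_injective ℚ Q5)).1 h1
  obtain ⟨n, hn⟩ := IsIntegrallyClosed.isIntegral_iff.1 h2
  exact ⟨n, hn.symm⟩

lemma norm_ne_two (x : 𝓞 Q5) : (QuadraticAlgebra.norm (x : Q5) : ℚ) ≠ 2 := by
  intro h
  obtain ⟨m, hm⟩ := trace_int x
  rw [QuadraticAlgebra.norm_def] at h
  have h1 : (m : ℚ) ^ 2 + 5 * (2 * (x : Q5).im) ^ 2 = 8 := by
    rw [← hm]; linear_combination 4 * h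
  have h2 : (m : ℚ) ^ 2 ≤ 8 := by nlinarith [sq_nonneg (2 * (x : Q5).im)]
  have h3 : m ^ 2 ≤ 8 := by exact_mod_cast h2
  have hm2 : m ≤ 2 := by nlinarith
  have hm1 : -2 ≤ m := by nlinarith
  have hsq : ∀ k : ℕ, (∀ y : ℕ, y * y ≠ k) → ∀ z : ℚ, z ^ 2 ≠ k := by
    intro k hk z hz
    have h4 : IsSquare (k : ℚ) := ⟨z, by rw [← hz, pow_two]⟩
    rw [Rat.isSquare_natCast_iff] at h4
    obtain ⟨y, hy⟩ := h4
    exact hk y hy.symm
  have hz : (5 * (2 * (x : Q5).im)) ^ 2 = 40 - 5 * (m : ℚ) ^ 2 := by linear_combination 5 * h1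
  have h40 := hsq 40 (fun y hy => by
    have : y ≤ 7 := by nlinarith
    interval_cases y <;> omega) (5 * (2 * (x : Q5).im))
  have h35 := hsq 35 (fun y hy => by
    have : y ≤ 6 := by nlinarith
    interval_cases y <;> omega) (5 * (2 * (x : Q5).im))
  have h20 := hsq 20 (fun y hy => by
    have : y ≤ 5 := by nlinarith
    interval_cases y <;> omega) (5 * (2 * (x : Q5).im))
  have hcase : m = -2 ∨ m = -1 ∨ m = 0 ∨ m = 1 ∨ m = 2 := by omega
  rcases hcase with rfl | rfl | rfl | rfl | rfl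
  · exact h20 (by rw [hz]; norm_num)
  · exact h35 (by rw [hz]; norm_num)
  · exact h40 (by rw [hz]; norm_num)
  · exact h35 (by rw [hz]; norm_num)
  · exact h20 (by rw [hz]; norm_num)

/-- `√-5` as an algebraic integer. -/
noncomputable def s5 : 𝓞 Q5 := ⟨⟨0, 1⟩, by
  refine ⟨Polynomial.X ^ 2 + Polynomial.C 5, by monicity!, ?_⟩
  rw [Polynomial.eval₂_add, Polynomial.eval₂_pow, Polynomial.eval₂_X, Polynomial.eval₂_C,
    map_ofNat]
  ext
  · simp [pow_two, QuadraticAlgebra.re_ofNat]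
  · simp [pow_two, QuadraticAlgebra.im_ofNat]⟩

lemma s5_sq : s5 * s5 = -5 := by
  apply RingOfIntegers.coe_injective
  rw [map_mul, map_neg, map_ofNat]
  show (⟨0, 1⟩ : Q5) * ⟨0, 1⟩ = -5
  ext
  · simp [QuadraticAlgebra.re_ofNat]
  · simp [QuadraticAlgebra.im_ofNat]

/-- The class number of `ℚ(√-5)` is even. -/
theorem even_Q5 : Even (classNumber Q5) := by
  classical
  let P : Ideal (𝓞 Q5) := Ideal.span {2, 1 + s5}
  have hP0 : P ≠ ⊥ := by
    intro h
    have h2 : (2 : 𝓞 Q5) ∈ P := Ideal.subset_span (by simp)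
    rw [h, Ideal.mem_bot] at h2
    exact two_ne_zero h2
  have hPP : P * P = Ideal.span {2} := by
    show Ideal.span {2, 1 + s5} * Ideal.span {2, 1 + s5} = _
    apply le_antisymm
    · rw [Ideal.span_mul_span', Ideal.span_le]
      rintro x ⟨y, hy, z, hz, rfl⟩
      simp only [Set.mem_insert_iff, Set.mem_singleton_iff] at hy hz
      show _ ∈ Ideal.span {2}
      rw [Ideal.mem_span_singleton']
      rcases hy with rfl | rfl <;> rcases hz with rfl | rfl
      · exact ⟨2, by ring⟩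
      · exact ⟨1 + s5, by ring⟩
      · exact ⟨1 + s5, by ring⟩
      · exact ⟨-2 + s5, by linear_combination -s5_sq⟩
    · rw [Ideal.span_singleton_le_iff_mem]
      have m2 : (2 : 𝓞 Q5) ∈ P := Ideal.subset_span (by simp)
      have ms : (1 + s5 : 𝓞 Q5) ∈ P := Ideal.subset_span (by simp)
      have h1 := Ideal.mul_mem_mul m2 m2
      have h2 := Ideal.mul_mem_mul m2 ms
      have h3 := Ideal.mul_mem_mul ms ms
      have h4 := (P * P).sub_mem ((P * P).sub_mem h2 h3) h1
      have h5 : 2 * (1 + s5) - (1 + s5) * (1 + s5) - 2 * 2 = (2 : 𝓞 Q5) := by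
        linear_combination -s5_sq
      rwa [h5] at h4
  let I : (Ideal (𝓞 Q5))⁰ := ⟨P, mem_nonZeroDivisors_iff_ne_zero.2 hP0⟩
  have hsq : ClassGroup.mk0 I ^ 2 = 1 := by
    rw [pow_two, ← map_mul, ClassGroup.mk0_eq_one_iff]
    exact ⟨⟨2, hPP⟩⟩
  have hne : ClassGroup.mk0 I ≠ 1 := by
    rw [Ne, ClassGroup.mk0_eq_one_iff]
    rintro ⟨t, ht⟩
    have ht' : P = Ideal.span {t} := ht
    rw [ht', Ideal.span_singleton_mul_span_singleton, Ideal.span_singleton_eq_span_singleton] at hPP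
    obtain ⟨u, hu⟩ := hPP
    have hN : (QuadraticAlgebra.norm (t : Q5) : ℚ) * QuadraticAlgebra.norm (t : Q5) *
        QuadraticAlgebra.norm ((u : 𝓞 Q5) : Q5) = 4 := by
      have h1 : ((t : Q5) * (t : Q5) * ((u : 𝓞 Q5) : Q5)) = 2 := by
        have := congrArg (algebraMap (𝓞 Q5) Q5) hu
        rwa [map_mul, map_mul, map_ofNat] at this
      rw [← map_mul, ← map_mul, h1, QuadraticAlgebra.norm_def, QuadraticAlgebra.re_ofNat,
        QuadraticAlgebra.im_ofNat]
      norm_num
    have hU : (QuadraticAlgebra.norm ((u : 𝓞 Q5) : Q5) : ℚ) *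
        QuadraticAlgebra.norm (((u⁻¹ : (𝓞 Q5)ˣ) : 𝓞 Q5) : Q5) = 1 := by
      have h1 : ((u : 𝓞 Q5) : Q5) * (((u⁻¹ : (𝓞 Q5)ˣ) : 𝓞 Q5) : Q5) = 1 := by
        have := congrArg (algebraMap (𝓞 Q5) Q5) u.mul_inv
        rwa [map_mul, map_one] at this
      rw [← map_mul, h1, map_one]
    obtain ⟨n1, hn1⟩ := norm_int (u : 𝓞 Q5)
    obtain ⟨n2, hn2⟩ := norm_int ((u⁻¹ : (𝓞 Q5)ˣ) : 𝓞 Q5)
    have hpos : (0 : ℚ) ≤ QuadraticAlgebra.norm ((u : 𝓞 Q5) : Q5) := by
      rw [QuadraticAlgebra.norm_def]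
      nlinarith [sq_nonneg ((u : 𝓞 Q5) : Q5).re, sq_nonneg ((u : 𝓞 Q5) : Q5).im]
    have hpos' : (0 : ℚ) ≤ QuadraticAlgebra.norm (t : Q5) := by
      rw [QuadraticAlgebra.norm_def]
      nlinarith [sq_nonneg (t : Q5).re, sq_nonneg (t : Q5).im]
    rw [hn1, hn2] at hU
    rw [hn1] at hN hpos
    have hU' : n1 * n2 = 1 := by exact_mod_cast hU
    have hp1 : 0 ≤ n1 := by exact_mod_cast hpos
    have hn11 : n1 = 1 := by
      rcases Int.eq_one_or_neg_one_of_mul_eq_one hU' with h | h
      · exact h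
      · omega
    rw [hn11] at hN
    apply norm_ne_two t
    have h4 : ((QuadraticAlgebra.norm (t : Q5) : ℚ) - 2) * (QuadraticAlgebra.norm (t : Q5) + 2) =
        0 := by
      push_cast at hN
      linear_combination hN
    rcases mul_eq_zero.1 h4 with h | h
    · linarith
    · linarith
  have hord : orderOf (ClassGroup.mk0 I) = 2 := orderOf_eq_prime hsq hne
  rw [even_iff_two_dvd, ← hord]
  exact orderOf_dvd_card

end NumberFields

/-- For every number field `K` with even class number, the quotients of the spherical buildings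
(discrete sets) of `PGL₂(K)` by `PGL₂(𝓞_K)` and of `SL₂(K)` by `SL₂(𝓞_K)` are not isomorphic; the
field `ℚ(√-5)` has even class number. -/
theorem result :
    (∀ (K : Type) [Field K] [NumberField K], Even (NumberField.classNumber K) →
      IsEmpty (PGLQuotient (NumberField.RingOfIntegers K) K ≃
        SLQuotient (NumberField.RingOfIntegers K) K)) ∧
    ∃ (K : Type) (_ : Field K) (_ : NumberField K), Even (NumberField.classNumber K) :=
  ⟨fun K _ _ hK => not_iso K hK, ⟨Q5, inferInstance, inferInstance, even_Q5⟩⟩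

end Pool.Agent.Results.MP_a12d4e_al.AdjointGroup
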